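import Pool.Agent.W711.HT.Stm

/-!
# Volume conjecture for highly twisted two-bridge links: the critical value of the sum over `d`
-/

set_option autoImplicit false

namespace Pool.Agent.W177.HT

open Filter Topology Metric
open Pool.Agent.W711.HT (rrF ssF Lg bet Rc S_RRD S_SD SD)
open scoped Real

/-! ### The function `asn` -/

/-- a branch of the inverse sine near the origin -/
noncomputable def asn (w : ℂ) : ℂ :=
  -Complex.I * Complex.log (Complex.I * w + Complex.exp (Complex.log (1 - w ^ 2) / 2))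

lemma sin_asn (w : ℂ) (hw : 1 - w ^ 2 ≠ 0) : Complex.sin (asn w) = w := by
  set E := Complex.exp (Complex.log (1 - w ^ 2) / 2) with hE
  have hE2 : E ^ 2 = 1 - w ^ 2 := by
    rw [hE, ← Complex.exp_nat_mul]
    rw [show ((2:ℕ):ℂ) * (Complex.log (1 - w ^ 2) / 2) = Complex.log (1 - w ^ 2) by
      push_cast; ring]
    exact Complex.exp_log hw
  have hm : (Complex.I * w + E) * (E - Complex.I * w) = 1 := by
    have : (Complex.I * w + E) * (E - Complex.I * w) = E ^ 2 - Complex.I ^ 2 * w ^ 2 := by ring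
    rw [this, hE2, Complex.I_sq]; ring
  have hX : Complex.I * w + E ≠ 0 := left_ne_zero_of_mul_eq_one hm
  have h1 : Complex.exp (asn w * Complex.I) = Complex.I * w + E := by
    rw [asn, ← hE, show -Complex.I * Complex.log (Complex.I * w + E) * Complex.I =
      -(Complex.I * Complex.I) * Complex.log (Complex.I * w + E) by ring, Complex.I_mul_I,
      neg_neg, one_mul, Complex.exp_log hX]
  have h2 : Complex.exp (-asn w * Complex.I) = E - Complex.I * w := by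
    rw [neg_mul, Complex.exp_neg, h1]
    exact inv_eq_of_mul_eq_one_right hm
  rw [Complex.sin, h1, h2]
  have : (E - Complex.I * w - (Complex.I * w + E)) * Complex.I / 2 =
    -(Complex.I * Complex.I) * w := by ring
  rw [this, Complex.I_mul_I]; ring

lemma asn_zero : asn 0 = 0 := by simp [asn]

lemma asn_an : AnalyticAt ℂ asn 0 := by
  unfold asn
  have h1 : AnalyticAt ℂ (fun w : ℂ => Complex.log (1 - w ^ 2)) 0 := by
    apply AnalyticAt.clog
    · fun_prop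
    · simp
  have h2 : AnalyticAt ℂ (fun w : ℂ => Complex.I * w + Complex.exp (Complex.log (1 - w ^ 2) / 2)) 0 := by
    apply AnalyticAt.add (by fun_prop)
    apply AnalyticAt.cexp'
    apply AnalyticAt.div h1 analyticAt_const (by norm_num)
  apply AnalyticAt.mul analyticAt_const
  apply AnalyticAt.clog h2
  simp

noncomputable def WW (p : ℂ × ℂ) : ℂ :=
  (1 - Complex.cos p.1 * Complex.cos p.2) / (2 + Complex.cos p.1 + Complex.cos p.2)

lemma WW_zero : WW 0 = 0 := by simp [WW]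

lemma cos_fst_an (p : ℂ × ℂ) : AnalyticAt ℂ (fun p : ℂ × ℂ => Complex.cos p.1) p :=
  Complex.analyticAt_cos.fun_comp analyticAt_fst

lemma cos_snd_an (p : ℂ × ℂ) : AnalyticAt ℂ (fun p : ℂ × ℂ => Complex.cos p.2) p :=
  Complex.analyticAt_cos.fun_comp analyticAt_snd

lemma WW_an : AnalyticAt ℂ WW 0 := by
  unfold WW
  apply AnalyticAt.div
  · exact analyticAt_const.sub ((cos_fst_an 0).mul (cos_snd_an 0))
  · exact (analyticAt_const.add (cos_fst_an 0)).add (cos_snd_an 0)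
  · simp; norm_num

lemma WW_symm (z w : ℂ) : WW (z, w) = WW (w, z) := by
  simp only [WW]; ring_nf

lemma WW_neg (z w : ℂ) : WW (-z, w) = WW (z, w) := by
  simp only [WW, Complex.cos_neg]

noncomputable def aa (p : ℂ × ℂ) : ℂ := asn (WW p)

lemma aa_zero : aa 0 = 0 := by rw [aa, WW_zero, asn_zero]

lemma aa_an : AnalyticAt ℂ aa 0 := by
  unfold aa
  apply AnalyticAt.fun_comp (f := WW) (g := asn) _ WW_an
  rw [WW_zero]; exact asn_an

noncomputable def dl (z w : ℂ) : ℂ := 1 / 4 - aa (z, w) / (2 * π)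

noncomputable def ss (z w : ℂ) : ℂ := rrF (dl z w) z + rrF (dl z w) w - 4 * ssF (dl z w)

lemma dl_symm (z w : ℂ) : dl z w = dl w z := by simp only [dl, aa, WW_symm]

lemma dl_neg (z w : ℂ) : dl (-z) w = dl z w := by simp only [dl, aa, WW_neg]

lemma ss_symm (z w : ℂ) : ss z w = ss w z := by
  simp only [ss, dl_symm z w]; ring

lemma rrF_neg (d z : ℂ) : rrF d (-z) = rrF d z := by simp only [rrF, Complex.cos_neg]

lemma ss_neg (z w : ℂ) : ss (-z) w = ss z w := by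
  simp only [ss, dl_neg, rrF_neg]

lemma dl_zero : dl 0 0 = 1 / 4 := by
  have : aa (0, 0) = 0 := aa_zero
  simp [dl, this]

lemma dl_an : AnalyticAt ℂ (fun p : ℂ × ℂ => dl p.1 p.2) 0 := by
  unfold dl
  apply analyticAt_const.sub
  apply AnalyticAt.div aa_an analyticAt_const
  simp [Real.pi_ne_zero]

/-! ### Elementary bounds -/

lemma norm_one_sub_cos (z : ℂ) (hz : ‖z‖ ≤ 1) : ‖1 - Complex.cos z‖ ≤ ‖z‖ ^ 2 := by
  have h1 : ‖Complex.exp (z * Complex.I) - 1 - z * Complex.I‖ ≤ ‖z‖ ^ 2 := by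
    have := Complex.norm_exp_sub_one_sub_id_le (x := z * Complex.I) (by simpa using hz)
    simpa using this
  have h2 : ‖Complex.exp (-z * Complex.I) - 1 - -z * Complex.I‖ ≤ ‖z‖ ^ 2 := by
    have := Complex.norm_exp_sub_one_sub_id_le (x := -z * Complex.I) (by simpa using hz)
    simpa using this
  have h3 : 1 - Complex.cos z = -((Complex.exp (z * Complex.I) - 1 - z * Complex.I) +
      (Complex.exp (-z * Complex.I) - 1 - -z * Complex.I)) / 2 := by
    rw [Complex.cos]; ring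
  rw [h3, norm_div, norm_neg]
  have h4 := norm_add_le (Complex.exp (z * Complex.I) - 1 - z * Complex.I)
    (Complex.exp (-z * Complex.I) - 1 - -z * Complex.I)
  rw [div_le_iff₀ (by norm_num)]
  have h5 : ‖(2:ℂ)‖ = 2 := by norm_num
  rw [h5]
  linarith

lemma norm_sin_le (z : ℂ) (hz : ‖z‖ ≤ 1) : ‖Complex.sin z‖ ≤ 2 * ‖z‖ := by
  have h1 : ‖Complex.exp (z * Complex.I) - 1‖ ≤ 2 * ‖z‖ := by
    have := Complex.norm_exp_sub_one_le (x := z * Complex.I) (by simpa using hz)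
    simpa using this
  have h2 : ‖Complex.exp (-z * Complex.I) - 1‖ ≤ 2 * ‖z‖ := by
    have := Complex.norm_exp_sub_one_le (x := -z * Complex.I) (by simpa using hz)
    simpa using this
  have h3 : Complex.sin z = ((Complex.exp (-z * Complex.I) - 1) -
      (Complex.exp (z * Complex.I) - 1)) * Complex.I / 2 := by
    rw [Complex.sin]; ring
  rw [h3, norm_div, norm_mul, Complex.norm_I, mul_one]
  have h4 := norm_sub_le (Complex.exp (-z * Complex.I) - 1) (Complex.exp (z * Complex.I) - 1)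
  rw [div_le_iff₀ (by norm_num)]
  have h5 : ‖(2:ℂ)‖ = 2 := by norm_num
  rw [h5]
  linarith

lemma aa_bound : ∃ C : ℝ, 0 < C ∧ ∀ᶠ p : ℂ × ℂ in 𝓝 0,
    ‖aa p‖ ≤ C * (‖p.1‖ ^ 2 + ‖p.2‖ ^ 2) := by
  have h1 : ∃ C : ℝ, 0 < C ∧ ∀ᶠ w : ℂ in 𝓝 0, ‖asn w‖ ≤ C * ‖w‖ := by
    have := asn_an.differentiableAt.isBigO_sub
    obtain ⟨C, hC, h⟩ := this.exists_pos
    refine ⟨C, hC, ?_⟩
    filter_upwards [h.bound] with w hw
    simpa [asn_zero] using hw
  obtain ⟨C, hC, h1⟩ := h1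
  refine ⟨C, hC, ?_⟩
  have h2 : Tendsto WW (𝓝 0) (𝓝 0) := by
    have := WW_an.continuousAt.tendsto
    rwa [WW_zero] at this
  have h34 : ∀ᶠ p : ℂ × ℂ in 𝓝 0, ‖p‖ < 1 := by
    have : ContinuousAt (fun p : ℂ × ℂ => ‖p‖) 0 := continuous_norm.continuousAt
    apply this.eventually_lt_const
    simp
  have h5 : ∀ᶠ p : ℂ × ℂ in 𝓝 0, 2 < ‖2 + Complex.cos p.1 + Complex.cos p.2‖ := by
    have : ContinuousAt (fun p : ℂ × ℂ => ‖2 + Complex.cos p.1 + Complex.cos p.2‖) 0 := by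
      fun_prop
    apply this.eventually_const_lt
    simp; norm_num
  filter_upwards [h2.eventually h1, h34, h5] with p hp h34 h5
  have h3 : ‖p.1‖ ≤ 1 := (norm_fst_le p).trans h34.le
  have h4 : ‖p.2‖ ≤ 1 := (norm_snd_le p).trans h34.le
  refine hp.trans ?_
  refine mul_le_mul_of_nonneg_left ?_ hC.le
  rw [WW, norm_div, div_le_iff₀ (by linarith)]
  have e1 := norm_one_sub_cos p.1 h3
  have e2 := norm_one_sub_cos p.2 h4
  have e3 : ‖Complex.cos p.1‖ ≤ 2 := by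
    have : Complex.cos p.1 = 1 - (1 - Complex.cos p.1) := by ring
    rw [this]
    refine (norm_sub_le _ _).trans ?_
    rw [norm_one]
    nlinarith [norm_nonneg p.1]
  have e4 : 1 - Complex.cos p.1 * Complex.cos p.2 =
      (1 - Complex.cos p.1) + Complex.cos p.1 * (1 - Complex.cos p.2) := by ring
  rw [e4]
  refine (norm_add_le _ _).trans ?_
  rw [norm_mul]
  have e5 : ‖Complex.cos p.1‖ * ‖1 - Complex.cos p.2‖ ≤ 2 * ‖p.2‖ ^ 2 :=
    mul_le_mul e3 e2 (norm_nonneg _) (by norm_num)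
  nlinarith [sq_nonneg ‖p.1‖, sq_nonneg ‖p.2‖]

/-! ### The critical point equation -/

lemma two_pi_dl (z w : ℂ) : 2 * π * dl z w = π / 2 - aa (z, w) := by
  rw [dl]
  have : (π : ℂ) ≠ 0 := by simp [Real.pi_ne_zero]
  field_simp
  ring

lemma dcos_ev : ∀ᶠ p : ℂ × ℂ in 𝓝 0, Complex.cos (2 * π * dl p.1 p.2) = WW p := by
  have h : ∀ᶠ p : ℂ × ℂ in 𝓝 0, 1 - WW p ^ 2 ≠ 0 := by
    have : ContinuousAt (fun p : ℂ × ℂ => 1 - WW p ^ 2) 0 :=
      continuousAt_const.sub (WW_an.continuousAt.pow 2)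
    apply this.eventually_ne
    simp [WW_zero]
  filter_upwards [h] with p hp
  rw [two_pi_dl, Complex.cos_pi_div_two_sub, aa, sin_asn _ hp]

lemma eq_zero_of_exp (z : ℂ) (h1 : Complex.exp z = 1) (h2 : ‖z‖ < 1) : z = 0 := by
  rw [Complex.exp_eq_one_iff] at h1
  obtain ⟨n, hn⟩ := h1
  by_cases h0 : n = 0
  · rw [hn, h0]; simp
  · exfalso
    have h3 : (1:ℝ) ≤ |(n:ℝ)| := by
      have := Int.one_le_abs h0
      exact_mod_cast this
    rw [hn, norm_mul] at h2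
    have h4 : ‖(2 * π * Complex.I : ℂ)‖ = 2 * π := by
      simp [abs_of_pos Real.pi_pos]
    rw [h4, Complex.norm_intCast] at h2
    nlinarith [Real.pi_gt_three]

lemma sin_an_dl : ContinuousAt (fun p : ℂ × ℂ => Complex.sin (π * dl p.1 p.2)) 0 := by
  have := dl_an.continuousAt
  exact Complex.continuous_sin.continuousAt.comp' (continuousAt_const.mul this)

lemma cos_an_dl : ContinuousAt (fun p : ℂ × ℂ => Complex.cos (2 * π * dl p.1 p.2)) 0 := by
  have := dl_an.continuousAt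
  exact Complex.continuous_cos.continuousAt.comp' (continuousAt_const.mul this)

lemma sin_pi_dl_zero : Complex.sin (π * dl 0 0) = (√2 / 2 : ℝ) := by
  rw [dl_zero, show (π : ℂ) * (1 / 4) = ((π / 4 : ℝ) : ℂ) by push_cast; ring,
    ← Complex.ofReal_sin, Real.sin_pi_div_four]

lemma cos_two_pi_dl_zero : Complex.cos (2 * π * dl 0 0) = 0 := by
  rw [dl_zero, show (2 * π : ℂ) * (1 / 4) = π / 2 by ring, Complex.cos_pi_div_two]

lemma two_sin_dl_zero : 2 * Complex.sin (π * dl 0 0) = ((√2 : ℝ) : ℂ) := by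
  rw [sin_pi_dl_zero]; push_cast; ring

lemma dcrit_ev : ∀ᶠ p : ℂ × ℂ in 𝓝 0,
    Complex.log (2 * Complex.cos p.1 + 2 * Complex.cos (2 * π * dl p.1 p.2)) +
      Complex.log (2 * Complex.cos p.2 + 2 * Complex.cos (2 * π * dl p.1 p.2)) =
      4 * Complex.log (2 * Complex.sin (π * dl p.1 p.2)) := by
  have c1 : ContinuousAt (fun p : ℂ × ℂ => 2 * Complex.cos p.1 +
      2 * Complex.cos (2 * π * dl p.1 p.2)) 0 :=
    (by fun_prop : ContinuousAt (fun p : ℂ × ℂ => 2 * Complex.cos p.1) 0).add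
      (continuousAt_const.mul cos_an_dl)
  have c2 : ContinuousAt (fun p : ℂ × ℂ => 2 * Complex.cos p.2 +
      2 * Complex.cos (2 * π * dl p.1 p.2)) 0 :=
    (by fun_prop : ContinuousAt (fun p : ℂ × ℂ => 2 * Complex.cos p.2) 0).add
      (continuousAt_const.mul cos_an_dl)
  have c3 : ContinuousAt (fun p : ℂ × ℂ => 2 * Complex.sin (π * dl p.1 p.2)) 0 :=
    continuousAt_const.mul sin_an_dl
  have v1 : 2 * Complex.cos (0 : ℂ × ℂ).1 + 2 * Complex.cos (2 * π * dl (0 : ℂ × ℂ).1 (0 : ℂ × ℂ).2) = 2 := by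
    simp [cos_two_pi_dl_zero]
  have v2 : 2 * Complex.cos (0 : ℂ × ℂ).2 + 2 * Complex.cos (2 * π * dl (0 : ℂ × ℂ).1 (0 : ℂ × ℂ).2) = 2 := by
    simp [cos_two_pi_dl_zero]
  have v3 : 2 * Complex.sin (π * dl (0 : ℂ × ℂ).1 (0 : ℂ × ℂ).2) = ((√2 : ℝ) : ℂ) := two_sin_dl_zero
  have l1 : ContinuousAt (fun p : ℂ × ℂ => Complex.log (2 * Complex.cos p.1 +
      2 * Complex.cos (2 * π * dl p.1 p.2))) 0 := by
    apply c1.clog
    rw [v1]; left; norm_num
  have l2 : ContinuousAt (fun p : ℂ × ℂ => Complex.log (2 * Complex.cos p.2 +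
      2 * Complex.cos (2 * π * dl p.1 p.2))) 0 := by
    apply c2.clog
    rw [v2]; left; norm_num
  have s2 : (0:ℝ) < √2 := by positivity
  have l3 : ContinuousAt (fun p : ℂ × ℂ => Complex.log (2 * Complex.sin (π * dl p.1 p.2))) 0 := by
    apply c3.clog
    rw [v3]; left; simp
  set f : ℂ × ℂ → ℂ := fun p => Complex.log (2 * Complex.cos p.1 +
      2 * Complex.cos (2 * π * dl p.1 p.2)) + Complex.log (2 * Complex.cos p.2 +
      2 * Complex.cos (2 * π * dl p.1 p.2)) - 4 * Complex.log (2 * Complex.sin (π * dl p.1 p.2))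
    with hf
  have lf : ContinuousAt f 0 := (l1.add l2).sub (continuousAt_const.mul l3)
  have f0 : f 0 = 0 := by
    simp only [hf]
    rw [v1, v2, v3, ← Complex.ofReal_log s2.le, Real.log_sqrt (by norm_num)]
    rw [show (2:ℂ) = ((2:ℝ):ℂ) by norm_num, ← Complex.ofReal_log (by norm_num)]
    push_cast; ring
  have e1 : ∀ᶠ p in 𝓝 0, ‖f p‖ < 1 := by
    apply (lf.norm).eventually_lt_const
    change ‖f 0‖ < 1
    rw [f0]; simp
  have n1 := c1.eventually_ne (y := 0) (by rw [v1]; norm_num)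
  have n2 := c2.eventually_ne (y := 0) (by rw [v2]; norm_num)
  have n3 := c3.eventually_ne (y := 0) (by rw [v3]; exact_mod_cast s2.ne')
  have n4 : ∀ᶠ p : ℂ × ℂ in 𝓝 0, 2 + Complex.cos p.1 + Complex.cos p.2 ≠ 0 := by
    have : ContinuousAt (fun p : ℂ × ℂ => 2 + Complex.cos p.1 + Complex.cos p.2) 0 := by
      fun_prop
    apply this.eventually_ne
    simp; norm_num
  filter_upwards [e1, n1, n2, n3, n4, dcos_ev] with p hp n1 n2 n3 n4 hd
  have key : f p = 0 := by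
    apply eq_zero_of_exp _ _ hp
    simp only [hf]
    rw [Complex.exp_sub, Complex.exp_add, Complex.exp_log n1, Complex.exp_log n2,
      show 4 * Complex.log (2 * Complex.sin (π * dl p.1 p.2)) =
      ((4:ℕ):ℂ) * Complex.log (2 * Complex.sin (π * dl p.1 p.2)) by push_cast; ring,
      Complex.exp_nat_mul, Complex.exp_log n3]
    rw [div_eq_one_iff_eq (pow_ne_zero 4 n3)]
    have h1 : 2 * Complex.sin (π * dl p.1 p.2) ^ 2 = 1 - Complex.cos (2 * π * dl p.1 p.2) := by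
      rw [show (2 * π * dl p.1 p.2 : ℂ) = 2 * (π * dl p.1 p.2) by ring, Complex.cos_two_mul,
        Complex.sin_sq]
      ring
    have h2 : (2 * Complex.sin (π * dl p.1 p.2)) ^ 4 =
        4 * (1 - Complex.cos (2 * π * dl p.1 p.2)) ^ 2 := by
      rw [← h1]; ring
    rw [h2, hd]
    have h3 : WW p * (2 + Complex.cos p.1 + Complex.cos p.2) =
        1 - Complex.cos p.1 * Complex.cos p.2 := by
      rw [WW, div_mul_cancel₀ _ n4]
    linear_combination 4 * h3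
  have := key
  simp only [hf, sub_eq_zero] at this
  exact this

/-! ### The function `Lg` -/

lemma hasDerivAt_Lg (u z : ℂ) (h1 : Complex.cos ((u + z) / 2) ≠ 0)
    (h2 : Complex.cos ((u - z) / 2) ≠ 0)
    (h3 : Complex.cos ((u - z) / 2) / Complex.cos ((u + z) / 2) ∈ Complex.slitPlane) :
    HasDerivAt (fun z => Lg u z) (Complex.sin u / (Complex.cos u + Complex.cos z)) z := by
  have d1 : HasDerivAt (fun z : ℂ => Complex.cos ((u - z) / 2))
      (-Complex.sin ((u - z) / 2) * (-1 / 2)) z :=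
    (((hasDerivAt_id z).const_sub u).div_const 2).ccos
  have d2 : HasDerivAt (fun z : ℂ => Complex.cos ((u + z) / 2))
      (-Complex.sin ((u + z) / 2) * (1 / 2)) z :=
    (((hasDerivAt_id z).const_add u).div_const 2).ccos
  have d3 := (d1.fun_div d2 h1).clog h3
  have e1 : Complex.sin u = Complex.sin ((u - z) / 2) * Complex.cos ((u + z) / 2) +
      Complex.cos ((u - z) / 2) * Complex.sin ((u + z) / 2) := by
    rw [← Complex.sin_add]; congr 1; ring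
  have e2 : Complex.cos u + Complex.cos z =
      2 * Complex.cos ((u - z) / 2) * Complex.cos ((u + z) / 2) := by
    have a1 : Complex.cos u = Complex.cos ((u - z) / 2 + (u + z) / 2) := by congr 1; ring
    have a2 : Complex.cos z = Complex.cos ((u + z) / 2 - (u - z) / 2) := by congr 1; ring
    rw [a1, a2, Complex.cos_add, Complex.cos_sub]; ring
  change HasDerivAt (fun t => Complex.log (Complex.cos ((u - t) / 2) / Complex.cos ((u + t) / 2)))
    _ z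
  convert d3 using 1
  rw [e1, e2]
  field_simp
  ring

lemma ev_ball {P : ℂ × ℂ → Prop} (h : ∀ᶠ p in 𝓝 0, P p) :
    ∃ r : ℝ, 0 < r ∧ ∀ z w : ℂ, ‖z‖ < r → ‖w‖ < r → P (z, w) := by
  rw [Metric.eventually_nhds_iff_ball] at h
  obtain ⟨r, hr, h⟩ := h
  refine ⟨r, hr, fun z w hz hw => h (z, w) ?_⟩
  rw [mem_ball_zero_iff, Prod.norm_mk]
  exact max_lt hz hw

lemma cos_pi_div_four' : Complex.cos (π / 2 / 2) = ((√2 / 2 : ℝ) : ℂ) := by
  rw [show (π : ℂ) / 2 / 2 = ((π / 4 : ℝ) : ℂ) by push_cast; ring, ← Complex.ofReal_cos,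
    Real.cos_pi_div_four]

lemma Lg_est : ∃ r : ℝ, 0 < r ∧ ∀ a z : ℂ, ‖a‖ < r → ‖z‖ < r →
    ‖Lg (π / 2 - a) z - z‖ ≤ 6 * ‖z‖ * (‖a‖ + ‖z‖ ^ 2) := by
  have s2 : (0:ℝ) < √2 / 2 := by positivity
  have c1 : ContinuousAt (fun p : ℂ × ℂ => Complex.cos ((π / 2 - p.1 + p.2) / 2)) 0 := by
    fun_prop
  have c2 : ContinuousAt (fun p : ℂ × ℂ => Complex.cos ((π / 2 - p.1 - p.2) / 2)) 0 := by
    fun_prop
  have v1 : Complex.cos ((π / 2 - (0 : ℂ × ℂ).1 + (0 : ℂ × ℂ).2) / 2) = ((√2 / 2 : ℝ) : ℂ) := by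
    rw [← cos_pi_div_four']; simp
  have v2 : Complex.cos ((π / 2 - (0 : ℂ × ℂ).1 - (0 : ℂ × ℂ).2) / 2) = ((√2 / 2 : ℝ) : ℂ) := by
    rw [← cos_pi_div_four']; simp
  have n1 := c1.eventually_ne (y := 0) (by rw [v1]; exact_mod_cast s2.ne')
  have n2 := c2.eventually_ne (y := 0) (by rw [v2]; exact_mod_cast s2.ne')
  have c3 : ContinuousAt (fun p : ℂ × ℂ => Complex.cos ((π / 2 - p.1 - p.2) / 2) /
      Complex.cos ((π / 2 - p.1 + p.2) / 2)) 0 :=
    c2.div₀ c1 (by rw [v1]; exact_mod_cast s2.ne')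
  have n3 : ∀ᶠ p : ℂ × ℂ in 𝓝 0, Complex.cos ((π / 2 - p.1 - p.2) / 2) /
      Complex.cos ((π / 2 - p.1 + p.2) / 2) ∈ Complex.slitPlane := by
    apply c3.eventually_mem
    apply Complex.isOpen_slitPlane.mem_nhds
    rw [v1, v2, div_self (by exact_mod_cast s2.ne')]
    left; norm_num
  have n4 : ∀ᶠ p : ℂ × ℂ in 𝓝 0, 1 / 2 < ‖Complex.sin p.1 + Complex.cos p.2‖ := by
    have : ContinuousAt (fun p : ℂ × ℂ => ‖Complex.sin p.1 + Complex.cos p.2‖) 0 := by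
      fun_prop
    apply this.eventually_const_lt
    simp; norm_num
  have n5 : ∀ᶠ p : ℂ × ℂ in 𝓝 0, ‖p‖ < 1 := by
    have : ContinuousAt (fun p : ℂ × ℂ => ‖p‖) 0 := continuous_norm.continuousAt
    apply this.eventually_lt_const
    simp
  obtain ⟨r, hr, h⟩ := ev_ball (n1.and (n2.and (n3.and (n4.and n5))))
  refine ⟨r, hr, fun a z ha hz => ?_⟩
  have hconv : Convex ℝ (closedBall (0:ℂ) ‖z‖) := convex_closedBall _ _
  have key := Convex.norm_image_sub_le_of_norm_hasDerivWithin_le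
    (f := fun w => Lg (π / 2 - a) w - w)
    (f' := fun w => Complex.sin (π / 2 - a) / (Complex.cos (π / 2 - a) + Complex.cos w) - 1)
    (C := 6 * (‖a‖ + ‖z‖ ^ 2)) (s := closedBall (0:ℂ) ‖z‖) (x := 0) (y := z) ?_ ?_ hconv
    (by simp) (by simp)
  · have h0 : Lg (π / 2 - a) 0 = 0 := by
      have := (h a 0 ha (by simpa using hr)).1
      simp only [Lg, sub_zero, add_zero]
      simp only [add_zero] at this
      rw [div_self this, Complex.log_one]
    simp only [h0, sub_zero] at key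
    linarith [key]
  · intro w hw
    have hw' : ‖w‖ < r := lt_of_le_of_lt (by simpa using hw) hz
    obtain ⟨m1, m2, m3, -, -⟩ := h a w ha hw'
    exact ((hasDerivAt_Lg _ _ m1 m2 m3).sub (hasDerivAt_id w)).hasDerivWithinAt
  · intro w hw
    have hw1 : ‖w‖ ≤ ‖z‖ := by simpa using hw
    have hw' : ‖w‖ < r := lt_of_le_of_lt hw1 hz
    obtain ⟨-, -, -, m4, m5⟩ := h a w ha hw'
    have ha1 : ‖a‖ ≤ 1 := (norm_fst_le (a, w)).trans m5.le
    have hw2 : ‖w‖ ≤ 1 := (norm_snd_le (a, w)).trans m5.le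
    simp only at m4
    rw [Complex.sin_pi_div_two_sub, Complex.cos_pi_div_two_sub]
    have hne : Complex.sin a + Complex.cos w ≠ 0 := by
      intro h0; rw [h0, norm_zero] at m4; linarith
    have e1 : Complex.cos a / (Complex.sin a + Complex.cos w) - 1 =
        (-(1 - Complex.cos a) + (1 - Complex.cos w) - Complex.sin a) /
          (Complex.sin a + Complex.cos w) := by
      field_simp
      ring
    rw [e1, norm_div, div_le_iff₀ (by linarith)]
    have b1 := norm_one_sub_cos a ha1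
    have b2 := norm_one_sub_cos w hw2
    have b3 := norm_sin_le a ha1
    have b4 : ‖-(1 - Complex.cos a) + (1 - Complex.cos w) - Complex.sin a‖ ≤
        ‖1 - Complex.cos a‖ + ‖1 - Complex.cos w‖ + ‖Complex.sin a‖ := by
      refine (norm_sub_le _ _).trans ?_
      gcongr
      refine (norm_add_le _ _).trans ?_
      rw [norm_neg]
    have b5 : ‖a‖ ^ 2 ≤ ‖a‖ := by nlinarith [norm_nonneg a]
    have b6 : ‖w‖ ^ 2 ≤ ‖z‖ ^ 2 := by gcongr
    have b7 : 0 ≤ ‖a‖ + ‖z‖ ^ 2 := by positivity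
    nlinarith

/-! ### The first derivative -/

noncomputable def TT (p : ℂ × ℂ) : ℂ := -(1 / (2 * π)) * Lg (2 * π * dl p.1 p.2) p.1

lemma pi_ne : (π : ℂ) ≠ 0 := by simp [Real.pi_ne_zero]

lemma TT_an : AnalyticAt ℂ TT 0 := by
  unfold TT Lg
  have s2 : (0:ℝ) < √2 / 2 := by positivity
  have hu : AnalyticAt ℂ (fun p : ℂ × ℂ => 2 * π * dl p.1 p.2) 0 := analyticAt_const.mul dl_an
  have h1 : AnalyticAt ℂ (fun p : ℂ × ℂ => Complex.cos ((2 * π * dl p.1 p.2 - p.1) / 2)) 0 :=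
    Complex.analyticAt_cos.fun_comp
      ((hu.sub analyticAt_fst).div analyticAt_const (by norm_num))
  have h2 : AnalyticAt ℂ (fun p : ℂ × ℂ => Complex.cos ((2 * π * dl p.1 p.2 + p.1) / 2)) 0 :=
    Complex.analyticAt_cos.fun_comp
      ((hu.add analyticAt_fst).div analyticAt_const (by norm_num))
  have v1 : Complex.cos ((2 * π * dl (0 : ℂ × ℂ).1 (0 : ℂ × ℂ).2 - (0 : ℂ × ℂ).1) / 2) =
      ((√2 / 2 : ℝ) : ℂ) := by
    rw [← cos_pi_div_four']
    simp [dl_zero]; ring_nf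
  have v2 : Complex.cos ((2 * π * dl (0 : ℂ × ℂ).1 (0 : ℂ × ℂ).2 + (0 : ℂ × ℂ).1) / 2) =
      ((√2 / 2 : ℝ) : ℂ) := by
    rw [← cos_pi_div_four']
    simp [dl_zero]; ring_nf
  apply analyticAt_const.mul
  apply AnalyticAt.clog (h1.fun_div h2 (by rw [v2]; exact_mod_cast s2.ne'))
  rw [v1, v2, div_self (by exact_mod_cast s2.ne')]
  left; norm_num

lemma TT_est : ∃ r C : ℝ, 0 < r ∧ 0 < C ∧ ∀ z w : ℂ, ‖z‖ < r → ‖w‖ < r →
    ‖TT (z, w) + z / (2 * π)‖ ≤ C * ‖z‖ * (‖z‖ ^ 2 + ‖w‖ ^ 2) := by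
  obtain ⟨C, hC, hb⟩ := aa_bound
  obtain ⟨r, hr, hL⟩ := Lg_est
  have h1 : ∀ᶠ p : ℂ × ℂ in 𝓝 0, ‖aa p‖ < r := by
    apply (aa_an.continuousAt.norm).eventually_lt_const
    change ‖aa 0‖ < r
    rw [aa_zero, norm_zero]; exact hr
  obtain ⟨r', hr', h⟩ := ev_ball (hb.and h1)
  refine ⟨min r r', 6 * (C + 1), lt_min hr hr', by positivity, fun z w hz hw => ?_⟩
  obtain ⟨b1, b2⟩ := h z w (lt_of_lt_of_le hz (min_le_right _ _))
    (lt_of_lt_of_le hw (min_le_right _ _))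
  have b3 := hL (aa (z, w)) z b2 (lt_of_lt_of_le hz (min_le_left _ _))
  have e1 : TT (z, w) + z / (2 * π) = -(1 / (2 * π)) * (Lg (π / 2 - aa (z, w)) z - z) := by
    rw [TT, two_pi_dl]; ring
  rw [e1, norm_mul, norm_neg]
  have e2 : ‖(1 / (2 * π) : ℂ)‖ ≤ 1 := by
    rw [norm_div, norm_one, norm_mul, Complex.norm_real, Real.norm_of_nonneg Real.pi_pos.le]
    rw [div_le_one (by simp [Real.pi_pos])]
    have : ‖(2:ℂ)‖ = 2 := by norm_num
    rw [this]
    linarith [Real.pi_gt_three]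
  have e3 : ‖(1 / (2 * π) : ℂ)‖ * ‖Lg (π / 2 - aa (z, w)) z - z‖ ≤
      1 * ‖Lg (π / 2 - aa (z, w)) z - z‖ := by gcongr
  refine e3.trans ?_
  rw [one_mul]
  refine b3.trans ?_
  simp only at b1
  have b4 : ‖aa (z, w)‖ + ‖z‖ ^ 2 ≤ (C + 1) * (‖z‖ ^ 2 + ‖w‖ ^ 2) := by
    nlinarith [sq_nonneg ‖w‖]
  calc 6 * ‖z‖ * (‖aa (z, w)‖ + ‖z‖ ^ 2) ≤ 6 * ‖z‖ * ((C + 1) * (‖z‖ ^ 2 + ‖w‖ ^ 2)) := by
        gcongr
    _ = 6 * (C + 1) * ‖z‖ * (‖z‖ ^ 2 + ‖w‖ ^ 2) := by ring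

lemma TT_slice (p : ℂ × ℂ) (hp : DifferentiableAt ℂ TT p) :
    HasDerivAt (fun z => TT (z, p.2)) (fderiv ℂ TT p (1, 0)) p.1 := by
  have h1 : HasDerivAt (fun z : ℂ => ((z, p.2) : ℂ × ℂ)) (1, 0) p.1 :=
    (hasDerivAt_id p.1).prodMk (hasDerivAt_const p.1 p.2)
  exact HasFDerivAt.comp_hasDerivAt (x := p.1) (f := fun z : ℂ => ((z, p.2) : ℂ × ℂ)) (l := TT)
    hp.hasFDerivAt h1

lemma TT_deriv_zero : fderiv ℂ TT 0 (1, 0) = -(1 / (2 * π)) := by
  have h1 := TT_slice 0 TT_an.differentiableAt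
  obtain ⟨r, C, hr, hC, h⟩ := TT_est
  have h2 : HasDerivAt (fun z => TT (z, 0) + z / (2 * π)) 0 0 := by
    have : (fun z => TT (z, 0) + z / (2 * π)) =O[𝓝 0] fun z : ℂ => ‖z - 0‖ ^ 3 := by
      apply Asymptotics.IsBigO.of_bound C
      filter_upwards [Metric.ball_mem_nhds (0:ℂ) hr] with z hz
      rw [mem_ball_zero_iff] at hz
      have := h z 0 hz (by simpa using hr)
      simp only [sub_zero, norm_pow, norm_norm, norm_zero] at this ⊢
      refine this.trans (le_of_eq (by ring))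
    have h3 := this.hasFDerivAt (𝕜 := ℂ) (by norm_num)
    simpa using h3.hasDerivAt
  have h3 : HasDerivAt (fun z => TT (z, 0) + z / (2 * π)) (fderiv ℂ TT 0 (1, 0) + 1 / (2 * π)) 0 :=
    HasDerivAt.add (f := fun z => TT (z, 0)) (g := fun z : ℂ => z / (2 * π)) h1
      ((hasDerivAt_id (0:ℂ)).div_const (2 * π : ℂ))
  have := h3.unique h2
  linear_combination this

lemma TT_conc : ∀ᶠ p : ℂ × ℂ in 𝓝 0, (fderiv ℂ TT p (1, 0)).re ≤ -(1 / (4 * π)) := by
  have h1 : ContinuousAt (fun p : ℂ × ℂ => (fderiv ℂ TT p (1, 0)).re) 0 := by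
    have := TT_an.fderiv.continuousAt
    exact Complex.continuous_re.continuousAt.comp' (this.clm_apply continuousAt_const)
  have h2 : (fderiv ℂ TT 0 (1, 0)).re < -(1 / (4 * π)) := by
    rw [TT_deriv_zero, show (-(1 / (2 * π)) : ℂ) = ((-(1 / (2 * π)) : ℝ) : ℂ) by push_cast; rfl,
      Complex.ofReal_re]
    have : 1 / (4 * π) < 1 / (2 * π) := by
      apply one_div_lt_one_div_of_lt <;> linarith [Real.pi_pos]
    linarith
  exact (h1.eventually_lt_const h2).mono fun p hp => hp.le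

/-! ### The main theorem -/

lemma ss_diff (p : ℂ × ℂ) (hdl : DifferentiableAt ℂ (fun p : ℂ × ℂ => dl p.1 p.2) p)
    (h1 : DifferentiableAt ℂ (fun p : ℂ × ℂ => rrF p.1 p.2) (dl p.1 p.2, p.1))
    (h2 : DifferentiableAt ℂ (fun p : ℂ × ℂ => rrF p.1 p.2) (dl p.1 p.2, p.2))
    (h3 : DifferentiableAt ℂ ssF (dl p.1 p.2)) :
    DifferentiableAt ℂ (fun p : ℂ × ℂ => ss p.1 p.2) p := by
  unfold ss
  have a1 : DifferentiableAt ℂ (fun p : ℂ × ℂ => rrF (dl p.1 p.2) p.1) p :=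
    DifferentiableAt.comp (g := fun p : ℂ × ℂ => rrF p.1 p.2)
      (f := fun p : ℂ × ℂ => (dl p.1 p.2, p.1)) p h1 (hdl.prodMk differentiableAt_fst)
  have a2 : DifferentiableAt ℂ (fun p : ℂ × ℂ => rrF (dl p.1 p.2) p.2) p :=
    DifferentiableAt.comp (g := fun p : ℂ × ℂ => rrF p.1 p.2)
      (f := fun p : ℂ × ℂ => (dl p.1 p.2, p.2)) p h2 (hdl.prodMk differentiableAt_snd)
  have a3 : DifferentiableAt ℂ (fun p : ℂ × ℂ => ssF (dl p.1 p.2)) p :=
    DifferentiableAt.comp (g := ssF) (f := fun p : ℂ × ℂ => dl p.1 p.2) p h3 hdl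
  exact (a1.add a2).sub (a3.const_mul 4)

lemma rrF_comp (δ ψ A B : ℂ) (h : DifferentiableAt ℂ (fun p : ℂ × ℂ => rrF p.1 p.2) (δ, ψ))
    (hA : HasDerivAt (fun z => rrF z ψ) A δ) (hB : HasDerivAt (fun z => rrF δ z) B ψ)
    (f g : ℂ → ℂ) (x f' g' : ℂ) (hf : HasDerivAt f f' x) (hg : HasDerivAt g g' x)
    (hfx : f x = δ) (hgx : g x = ψ) :
    HasDerivAt (fun z => rrF (f z) (g z)) (f' * A + g' * B) x := by
  subst hfx hgx
  set L := fderiv ℂ (fun p : ℂ × ℂ => rrF p.1 p.2) (f x, g x) with hL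
  have hF : HasFDerivAt (fun p : ℂ × ℂ => rrF p.1 p.2) L (f x, g x) := h.hasFDerivAt
  have h1 : HasDerivAt (fun z => rrF z (g x)) (L (1, 0)) (f x) := by
    have k : HasDerivAt (fun z : ℂ => ((z, g x) : ℂ × ℂ)) (1, 0) (f x) :=
      (hasDerivAt_id _).prodMk (hasDerivAt_const _ _)
    exact HasFDerivAt.comp_hasDerivAt (x := f x) (f := fun z : ℂ => ((z, g x) : ℂ × ℂ))
      (l := fun p : ℂ × ℂ => rrF p.1 p.2) hF k
  have h2 : HasDerivAt (fun z => rrF (f x) z) (L (0, 1)) (g x) := by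
    have k : HasDerivAt (fun z : ℂ => ((f x, z) : ℂ × ℂ)) (0, 1) (g x) :=
      (hasDerivAt_const _ _).prodMk (hasDerivAt_id _)
    exact HasFDerivAt.comp_hasDerivAt (x := g x) (f := fun z : ℂ => ((f x, z) : ℂ × ℂ))
      (l := fun p : ℂ × ℂ => rrF p.1 p.2) hF k
  have e1 : L (1, 0) = A := h1.unique hA
  have e2 : L (0, 1) = B := h2.unique hB
  have h3 : HasDerivAt (fun z => rrF (f z) (g z)) (L (f', g')) x :=
    HasFDerivAt.comp_hasDerivAt (x := x) (f := fun z : ℂ => ((f z, g z) : ℂ × ℂ))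
      (l := fun p : ℂ × ℂ => rrF p.1 p.2) hF (hf.prodMk hg)
  have e3 : L (f', g') = f' * A + g' * B := by
    have : ((f', g') : ℂ × ℂ) = f' • ((1, 0) : ℂ × ℂ) + g' • ((0, 1) : ℂ × ℂ) := by
      simp
    rw [this, map_add, map_smul, map_smul, e1, e2, smul_eq_mul, smul_eq_mul]
  rwa [e3] at h3

theorem sd : S_RRD → S_SD := by
  rintro ⟨ρ, hρ, hR, hS, hD, hZ⟩
  obtain ⟨C₁, hC₁, hb⟩ := aa_bound
  obtain ⟨r₂, C₂, hr₂, hC₂, hT⟩ := TT_est
  have cdl : ContinuousAt (fun p : ℂ × ℂ => dl p.1 p.2) 0 := dl_an.continuousAt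
  have d0 : dl (0 : ℂ × ℂ).1 (0 : ℂ × ℂ).2 = 1 / 4 := dl_zero
  have e1 : ∀ᶠ p : ℂ × ℂ in 𝓝 0, dl p.1 p.2 ∈ ball (1 / 4 : ℂ) ρ := by
    apply cdl.eventually_mem
    rw [d0]; exact Metric.ball_mem_nhds _ hρ
  have e2 : ∀ᶠ p : ℂ × ℂ in 𝓝 0, p.1 ∈ ball (0 : ℂ) ρ := by
    apply (continuous_fst.continuousAt (x := (0 : ℂ × ℂ))).eventually_mem
    exact Metric.ball_mem_nhds _ hρ
  have e3 : ∀ᶠ p : ℂ × ℂ in 𝓝 0, p.2 ∈ ball (0 : ℂ) ρ := by
    apply (continuous_snd.continuousAt (x := (0 : ℂ × ℂ))).eventually_mem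
    exact Metric.ball_mem_nhds _ hρ
  have e4 : ∀ᶠ p : ℂ × ℂ in 𝓝 0, DifferentiableAt ℂ (fun p : ℂ × ℂ => dl p.1 p.2) p :=
    dl_an.eventually_analyticAt.mono fun p hp => hp.differentiableAt
  have e5 : ∀ᶠ p : ℂ × ℂ in 𝓝 0, ‖dl p.1 p.2 - 1 / 4‖ < 1 / 16 := by
    have : ContinuousAt (fun p : ℂ × ℂ => ‖dl p.1 p.2 - 1 / 4‖) 0 :=
      (cdl.sub continuousAt_const).norm
    apply this.eventually_lt_const
    change ‖dl (0 : ℂ × ℂ).1 (0 : ℂ × ℂ).2 - 1 / 4‖ < 1 / 16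
    rw [d0]; simp
  have e6 : ∀ᶠ p : ℂ × ℂ in 𝓝 0, DifferentiableAt ℂ TT p :=
    TT_an.eventually_analyticAt.mono fun p hp => hp.differentiableAt
  have hprod : ∀ δ ∈ ball (1 / 4 : ℂ) ρ, ∀ ψ ∈ ball (0 : ℂ) ρ,
      DifferentiableAt ℂ (fun p : ℂ × ℂ => rrF p.1 p.2) (δ, ψ) := by
    intro δ hδ ψ hψ
    exact (hR (δ, ψ) ⟨hδ, hψ⟩).differentiableAt
      ((isOpen_ball.prod isOpen_ball).mem_nhds ⟨hδ, hψ⟩)
  have hsing : ∀ δ ∈ ball (1 / 4 : ℂ) ρ, DifferentiableAt ℂ ssF δ := fun δ hδ =>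
    (hS δ hδ).differentiableAt (isOpen_ball.mem_nhds hδ)
  have e7 : ∀ᶠ p : ℂ × ℂ in 𝓝 0, DifferentiableAt ℂ (fun p : ℂ × ℂ => ss p.1 p.2) p := by
    filter_upwards [e1, e2, e3, e4] with p h1 h2 h3 h4
    exact ss_diff p h4 (hprod _ h1 _ h2) (hprod _ h1 _ h3) (hsing _ h1)
  have e8 : ∀ᶠ p : ℂ × ℂ in 𝓝 0, ‖ss p.1 p.2‖ < ‖ss 0 0‖ + 1 := by
    have : ContinuousAt (fun p : ℂ × ℂ => ‖ss p.1 p.2‖) 0 := e7.self_of_nhds.continuousAt.norm
    apply this.eventually_lt_const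
    simp
  have e9 : ∀ᶠ p : ℂ × ℂ in 𝓝 0,
      HasDerivAt (fun z => ss z p.2) (TT (p.1, p.2)) p.1 := by
    filter_upwards [e1, e2, e3, e4, dcrit_ev] with p h1 h2 h3 h4 h5
    have k : HasDerivAt (fun z : ℂ => ((z, p.2) : ℂ × ℂ)) (1, 0) p.1 :=
      (hasDerivAt_id _).prodMk (hasDerivAt_const _ _)
    have hd : HasDerivAt (fun z => dl z p.2)
        (fderiv ℂ (fun p : ℂ × ℂ => dl p.1 p.2) p (1, 0)) p.1 :=
      HasFDerivAt.comp_hasDerivAt (x := p.1) (f := fun z : ℂ => ((z, p.2) : ℂ × ℂ))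
        (l := fun p : ℂ × ℂ => dl p.1 p.2) h4.hasFDerivAt k
    set d' := fderiv ℂ (fun p : ℂ × ℂ => dl p.1 p.2) p (1, 0) with hd'
    obtain ⟨q1, q2, q3⟩ := hD _ h1 _ h2
    obtain ⟨q4, q5, -⟩ := hD _ h1 _ h3
    have r1 := rrF_comp _ _ _ _ (hprod _ h1 _ h2) q1 q2 (fun z => dl z p.2) (fun z => z) p.1 d' 1
      hd (hasDerivAt_id _) rfl rfl
    have r2 := rrF_comp _ _ _ _ (hprod _ h1 _ h3) q4 q5 (fun z => dl z p.2) (fun _ => p.2) p.1 d' 0
      hd (hasDerivAt_const _ _) rfl rfl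
    have r3 : HasDerivAt (fun z => ssF (dl z p.2)) (Complex.log (2 * Complex.sin (π * dl p.1 p.2)) * d')
      p.1 := HasDerivAt.comp (h₂ := ssF) (h := fun z => dl z p.2) p.1 q3 hd
    have r4 := (r1.add r2).sub (r3.const_mul 4)
    refine r4.congr_deriv ?_
    rw [TT]
    linear_combination d' * h5
  obtain ⟨r₀, hr₀, H⟩ := ev_ball (e1.and (e2.and (e3.and (e4.and (e5.and (e6.and (e7.and (e8.and
    (e9.and (hb.and (dcos_ev.and (dcrit_ev.and TT_conc))))))))))))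
  have hbet : ss 0 0 = ((2 * bet : ℝ) : ℂ) := by
    rw [ss, dl_zero, ← hZ]; ring
  set r := min r₀ r₂ with hr
  have hrpos : 0 < r := lt_min hr₀ hr₂
  have hin : ∀ z ∈ Rc (min 1 (r / 2)) (min 1 (r / 2)), ‖z‖ < r := by
    rintro z ⟨hz1, hz2⟩
    have h1 := Complex.norm_le_abs_re_add_abs_im z
    have h2 : min 1 (r / 2) ≤ r / 2 := min_le_right _ _
    linarith
  have hin0 : ∀ z ∈ Rc (min 1 (r / 2)) (min 1 (r / 2)), ‖z‖ < r₀ := fun z hz =>
    lt_of_lt_of_le (hin z hz) (min_le_left _ _)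
  -- the second order expansion
  set D : ℂ → ℂ → ℂ := fun z w => ss z w - (2 * bet - (z ^ 2 + w ^ 2) / (4 * π)) with hDdef
  have hstep : ∀ z w : ℂ, ‖z‖ < r → ‖w‖ < r →
      ‖D z w - D 0 w‖ ≤ C₂ * ‖z‖ ^ 2 * (‖z‖ ^ 2 + ‖w‖ ^ 2) := by
    intro z w hz hw
    have key := Convex.norm_image_sub_le_of_norm_hasDerivWithin_le
      (f := fun x => D x w) (f' := fun x => TT (x, w) + x / (2 * π))
      (C := C₂ * ‖z‖ * (‖z‖ ^ 2 + ‖w‖ ^ 2)) (s := closedBall (0:ℂ) ‖z‖) (x := 0) (y := z) ?_ ?_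
      (convex_closedBall _ _) (by simp) (by simp)
    · refine key.trans (le_of_eq ?_)
      rw [sub_zero]; ring
    · intro x hx
      have hx' : ‖x‖ < r := lt_of_le_of_lt (by simpa using hx) hz
      have h9 := (H x w (lt_of_lt_of_le hx' (min_le_left _ _))
        (lt_of_lt_of_le hw (min_le_left _ _))).2.2.2.2.2.2.2.2.1
      have h10 : HasDerivAt (fun x : ℂ => (2 * bet - (x ^ 2 + w ^ 2) / (4 * π) : ℂ))
          (-(x / (2 * π))) x := by
        have := (((hasDerivAt_pow 2 x).add_const (w ^ 2)).div_const (4 * π : ℂ)).const_sub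
          (2 * bet : ℂ)
        refine this.congr_deriv ?_
        have := pi_ne
        field_simp
        norm_num
        ring
      refine HasDerivAt.hasDerivWithinAt ?_
      refine (h9.sub h10).congr_deriv ?_
      ring
    · intro x hx
      have hx1 : ‖x‖ ≤ ‖z‖ := by simpa using hx
      have hx' : ‖x‖ < r := lt_of_le_of_lt hx1 hz
      refine (hT x w (lt_of_lt_of_le hx' (min_le_right _ _))
        (lt_of_lt_of_le hw (min_le_right _ _))).trans ?_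
      gcongr
  refine ⟨min 1 (r / 2), 1 / (4 * π), ‖ss 0 0‖ + 1 + C₁ + C₂, ss, dl, ?_⟩
  have hpi : (0:ℝ) < π := Real.pi_pos
  refine
    { hρ := ⟨lt_min one_pos (by positivity), min_le_left _ _⟩
      hc := by positivity
      hC := by positivity
      san := ?_
      dan := ?_
      sbd := ?_
      sym := fun ψ _ ψ' _ => ss_symm _ _
      dsym := fun ψ _ ψ' _ => dl_symm _ _
      ev := fun ψ _ ψ' _ => ss_neg _ _
      zero := hbet
      conc := ?_
      dl0 := dl_zero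
      dclose := ?_
      dcos := ?_
      dcrit := ?_
      scrit := fun ψ _ ψ' _ => rfl
      sder := ?_
      low := ?_ }
  · rintro ⟨z, w⟩ ⟨hz, hw⟩
    exact (H z w (hin0 z hz) (hin0 w hw)).2.2.2.2.2.2.1.differentiableWithinAt
  · rintro ⟨z, w⟩ ⟨hz, hw⟩
    exact (H z w (hin0 z hz) (hin0 w hw)).2.2.2.1.differentiableWithinAt
  · intro z hz w hw
    have := (H z w (hin0 z hz) (hin0 w hw)).2.2.2.2.2.2.2.1
    simp only at this
    linarith
  · intro z hz w hw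
    have h1 : deriv (fun z => ss z w) =ᶠ[𝓝 z] fun z => TT (z, w) := by
      have : ball (0:ℂ) r₀ ∈ 𝓝 z := isOpen_ball.mem_nhds (by simpa using hin0 z hz)
      filter_upwards [this] with x hx
      exact (H x w (by simpa using hx) (hin0 w hw)).2.2.2.2.2.2.2.2.1.deriv
    have h2 := H z w (hin0 z hz) (hin0 w hw)
    rw [h1.deriv_eq, (TT_slice (z, w) h2.2.2.2.2.2.1).deriv]
    exact h2.2.2.2.2.2.2.2.2.2.2.2.2
  · intro z hz w hw
    have h2 := H z w (hin0 z hz) (hin0 w hw)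
    refine ⟨h2.2.2.2.2.1.le, ?_⟩
    have h3 := h2.2.2.2.2.2.2.2.2.2.1
    simp only at h3
    have h4 : dl z w - 1 / 4 = -(aa (z, w) / (2 * π)) := by rw [dl]; ring
    have h5 : ‖(2 * π : ℂ)‖ = 2 * π := by
      rw [norm_mul, Complex.norm_real, Real.norm_of_nonneg hpi.le]; norm_num
    rw [h4, norm_neg, norm_div, h5]
    have h6 : ‖aa (z, w)‖ / (2 * π) ≤ ‖aa (z, w)‖ :=
      div_le_self (norm_nonneg _) (by linarith [Real.pi_gt_three])
    refine h6.trans (h3.trans ?_)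
    gcongr
    linarith [norm_nonneg (ss 0 0)]
  · intro z hz w hw
    exact (H z w (hin0 z hz) (hin0 w hw)).2.2.2.2.2.2.2.2.2.2.1
  · intro z hz w hw
    exact (H z w (hin0 z hz) (hin0 w hw)).2.2.2.2.2.2.2.2.2.2.2.1
  · intro z hz w hw
    exact (H z w (hin0 z hz) (hin0 w hw)).2.2.2.2.2.2.2.2.1
  · intro z hz w hw
    have h1 := hstep z w (hin z hz) (hin w hw)
    have h2 := hstep w 0 (hin w hw) (by simpa using hrpos)
    have h3 : D 0 w = D w 0 := by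
      simp only [hDdef, ss_symm 0 w]; ring
    have h4 : D 0 0 = 0 := by
      simp only [hDdef, hbet]; push_cast; simp
    have h5 : ss z w - (2 * bet - (z ^ 2 + w ^ 2) / (4 * π)) =
        (D z w - D 0 w) + (D w 0 - D 0 0) := by
      rw [h4, h3]; simp only [hDdef]; ring
    rw [h5]
    refine (norm_add_le _ _).trans ((add_le_add h1 h2).trans ?_)
    rw [norm_zero]
    have hx := norm_nonneg z
    have hy := norm_nonneg w
    have h6 : C₂ * ‖z‖ ^ 2 * (‖z‖ ^ 2 + ‖w‖ ^ 2) + C₂ * ‖w‖ ^ 2 * (‖w‖ ^ 2 + 0 ^ 2) ≤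
        C₂ * (‖z‖ + ‖w‖) ^ 4 := by
      have : ‖z‖ ^ 2 * (‖z‖ ^ 2 + ‖w‖ ^ 2) + ‖w‖ ^ 2 * (‖w‖ ^ 2 + 0 ^ 2) ≤ (‖z‖ + ‖w‖) ^ 4 := by
        have t1 : 0 ≤ ‖z‖ ^ 3 * ‖w‖ := by positivity
        have t2 : 0 ≤ ‖z‖ ^ 2 * ‖w‖ ^ 2 := by positivity
        have t3 : 0 ≤ ‖z‖ * ‖w‖ ^ 3 := by positivity
        nlinarith
      calc C₂ * ‖z‖ ^ 2 * (‖z‖ ^ 2 + ‖w‖ ^ 2) + C₂ * ‖w‖ ^ 2 * (‖w‖ ^ 2 + 0 ^ 2)
          = C₂ * (‖z‖ ^ 2 * (‖z‖ ^ 2 + ‖w‖ ^ 2) + ‖w‖ ^ 2 * (‖w‖ ^ 2 + 0 ^ 2)) := by ring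
        _ ≤ _ := by gcongr
    refine h6.trans ?_
    gcongr
    linarith [norm_nonneg (ss 0 0)]

end Pool.Agent.W177.HT
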